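import Mathlib

/-!
Polynomial space algorithms for maximum cut: the machine (a random access machine with a fixed
number of registers and arrays, structured programs, unit cost) and the program.
-/

set_option autoImplicit false

namespace Pool.Agent.H79.MC

/-! ### the machine -/

/-- expressions: constants, registers, array cells and arithmetic (truncated subtraction) -/
inductive Exp : Type
  | lit (k : ℕ) : Exp
  | reg (i : ℕ) : Exp
  | get (k : ℕ) (e : Exp) : Exp
  | add (e f : Exp) : Exp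
  | sub (e f : Exp) : Exp
  | mul (e f : Exp) : Exp
  | div (e f : Exp) : Exp
  | mod (e f : Exp) : Exp

/-- memory: registers `r i` and arrays `a k` -/
structure St : Type where
  r : ℕ → ℕ
  a : ℕ → ℕ → ℕ

/-- value of an expression -/
def ev (s : St) : Exp → ℕ
  | .lit k => k
  | .reg i => s.r i
  | .get k e => s.a k (ev s e)
  | .add e f => ev s e + ev s f
  | .sub e f => ev s e - ev s f
  | .mul e f => ev s e * ev s f
  | .div e f => ev s e / ev s f
  | .mod e f => ev s e % ev s f

/-- largest number that occurs when the expression is evaluated -/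
def mx (s : St) : Exp → ℕ
  | .lit k => k
  | .reg i => s.r i
  | .get k e => max (mx s e) (s.a k (ev s e))
  | .add e f => max (max (mx s e) (mx s f)) (ev s e + ev s f)
  | .sub e f => max (mx s e) (mx s f)
  | .mul e f => max (max (mx s e) (mx s f)) (ev s e * ev s f)
  | .div e f => max (mx s e) (mx s f)
  | .mod e f => max (mx s e) (mx s f)

/-- assignment to a register -/
def St.setr (s : St) (i v : ℕ) : St := ⟨Function.update s.r i v, s.a⟩

/-- assignment to an array cell -/
def St.seta (s : St) (k i v : ℕ) : St :=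
  ⟨s.r, Function.update s.a k (Function.update (s.a k) i v)⟩

/-- programs -/
inductive Prog : Type
  | skip : Prog
  | set (i : ℕ) (e : Exp) : Prog
  | put (k : ℕ) (e f : Exp) : Prog
  | seq (p q : Prog) : Prog
  | ite (e : Exp) (p q : Prog) : Prog
  | wh (e : Exp) (p : Prog) : Prog

/-- `Run W p s t s'`: started in `s` the program `p` stops in `s'` after `t` steps, and all numbers
that occur (addresses, contents, intermediate values) are at most `W` -/
inductive Run (W : ℕ) : Prog → St → ℕ → St → Prop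
  | skip (s : St) : Run W .skip s 1 s
  | set (i : ℕ) (e : Exp) (s : St) (h : mx s e ≤ W) : Run W (.set i e) s 1 (s.setr i (ev s e))
  | put (k : ℕ) (e f : Exp) (s : St) (h : mx s e ≤ W) (h' : mx s f ≤ W) :
      Run W (.put k e f) s 1 (s.seta k (ev s e) (ev s f))
  | seq {p q : Prog} {s s' s'' : St} {t t' : ℕ} :
      Run W p s t s' → Run W q s' t' s'' → Run W (.seq p q) s (t + t') s''
  | ite_true {e : Exp} {p q : Prog} {s s' : St} {t : ℕ} (h : mx s e ≤ W) :
      ev s e ≠ 0 → Run W p s t s' → Run W (.ite e p q) s (t + 1) s'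
  | ite_false {e : Exp} {p q : Prog} {s s' : St} {t : ℕ} (h : mx s e ≤ W) :
      ev s e = 0 → Run W q s t s' → Run W (.ite e p q) s (t + 1) s'
  | wh_false {e : Exp} {p : Prog} {s : St} (h : mx s e ≤ W) :
      ev s e = 0 → Run W (.wh e p) s 1 s
  | wh_true {e : Exp} {p : Prog} {s s' s'' : St} {t t' : ℕ} (h : mx s e ≤ W) :
      ev s e ≠ 0 → Run W p s t s' → Run W (.wh e p) s' t' s'' →
      Run W (.wh e p) s (t + t' + 1) s''

/-! ### the program

registers: 0 = n, 1 = number of blocks `q`, 2 = `b = 2^a q`, 3 = `L = n - b + 1`, 4 = offset `j`,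
5 = threshold, 6, 7 = loop flags, 8, 9 = indices, 10 = accumulator, 11 = position, 12 = success flag
of the last increment, 13 = auxiliary, 14 = best value, 15 = low bits are zero.
arrays: 0 = adjacency matrix, 1 = output, 2 = current cut, 3 = clock, 4 = guess, 5 = indicator of the
positions `≥ b`, 6 = weights of the sample, 7 = signs of the sample. -/

/-- `for r i = 0, ..., N - 1 do p` -/
def forP (i : ℕ) (N : Exp) (p : Prog) : Prog :=
  .seq (.set i (.lit 0)) (.wh (.sub N (.reg i)) (.seq p (.set i (.add (.reg i) (.lit 1)))))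

/-- `r 10 := ∑ over r 8, r 9 < n of e` -/
def sumP (e : Exp) : Prog :=
  .seq (.set 10 (.lit 0)) (forP 8 (.reg 0) (forP 9 (.reg 0) (.set 10 (.add (.reg 10) e))))

/-- add `2^start` to the binary number of length `len` in array `k`; `r 12 = 1` if no overflow -/
def incP (k : ℕ) (start len : Exp) : Prog :=
  .seq (.set 11 start) (.seq (.set 12 (.lit 0))
    (.wh (.mul (.sub len (.reg 11)) (.sub (.lit 1) (.reg 12)))
      (.ite (.get k (.reg 11))
        (.seq (.put k (.reg 11) (.lit 0)) (.set 11 (.add (.reg 11) (.lit 1))))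
        (.seq (.put k (.reg 11) (.lit 1)) (.set 12 (.lit 1))))))

/-- `1` if the values are equal, otherwise `0` -/
def eqE (e f : Exp) : Exp := .sub (.lit 1) (.add (.sub e f) (.sub f e))

/-- adjacency of the vertices at the positions `r 8`, `r 9` -/
def adjE : Exp :=
  .get 0 (.add (.mul (.mod (.add (.reg 8) (.reg 4)) (.reg 0)) (.reg 0))
    (.mod (.add (.reg 9) (.reg 4)) (.reg 0)))

/-- adjacent and on the same side -/
def valE : Exp := .mul adjE (eqE (.get 2 (.reg 8)) (.get 2 (.reg 9)))

/-- the terms of the test -/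
def testE : Exp :=
  .mul (.mul (.get 5 (.reg 8)) adjE)
    (.add (.mul (.get 5 (.reg 9)) (eqE (.get 2 (.reg 8)) (.get 2 (.reg 9))))
      (.mul (.get 6 (.reg 9)) (eqE (.get 2 (.reg 8)) (.get 7 (.reg 9)))))

/-- copy the current cut to the output -/
def copyP : Prog :=
  forP 8 (.reg 0) (.put 1 (.mod (.add (.reg 8) (.reg 4)) (.reg 0)) (.get 2 (.reg 8)))

/-- one step of the inner loop -/
def bodyP : Prog :=
  .seq (.ite (.reg 15) (.seq (sumP testE) (.set 13 (.sub (.add (.reg 5) (.lit 1)) (.reg 10))))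
      (.set 13 (.lit 1)))
  (.seq (.ite (.reg 13)
      (.seq (sumP valE) (.seq (.ite (.sub (.reg 14) (.reg 10)) (.seq (.set 14 (.reg 10)) copyP) .skip)
        (incP 2 (.lit 0) (.reg 0))))
      (incP 2 (.reg 2) (.reg 0)))
  (.seq (.set 15 (.sub (.add (.reg 11) (.lit 1)) (.reg 2)))
  (.seq (.set 7 (.reg 12))
  (.seq (incP 3 (.lit 0) (.reg 3))
    (.set 7 (.mul (.reg 7) (.reg 12)))))))

/-- the inner loop -/
def innerP : Prog :=
  .seq (forP 8 (.reg 0) (.put 2 (.reg 8) (.lit 0)))
  (.seq (forP 8 (.add (.reg 0) (.lit 1)) (.put 3 (.reg 8) (.lit 0)))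
  (.seq (.set 15 (.lit 1)) (.seq (.set 7 (.lit 1)) (.wh (.reg 7) bodyP))))

/-- the number with binary digits `g (m r8), ..., g (m r8 + c - 1)` -/
def posE (m : ℕ) : ℕ → Exp
  | 0 => .lit 0
  | c + 1 => .add (posE m c)
      (.mul (.lit (2 ^ c)) (.get 4 (.add (.mul (.lit m) (.reg 8)) (.lit c))))

/-- decode the guess: one element of each block of length `2^a`, and its sign -/
def setupP (a : ℕ) : Prog :=
  .seq (forP 8 (.reg 0)
    (.seq (.put 5 (.reg 8) (.sub (.lit 1) (.sub (.reg 2) (.reg 8))))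
      (.seq (.put 6 (.reg 8) (.lit 0)) (.put 7 (.reg 8) (.lit 0)))))
  (forP 8 (.reg 1)
    (.seq (.set 9 (.add (.mul (.lit (2 ^ a)) (.reg 8)) (posE (a + 1) a)))
      (.seq (.put 6 (.reg 9) (.lit (2 * 2 ^ a)))
        (.put 7 (.reg 9) (.get 4 (.add (.mul (.lit (a + 1)) (.reg 8)) (.lit a)))))))

/-- number of bits of the guess -/
def glenE (a : ℕ) : Exp := .mul (.lit (a + 1)) (.reg 1)

/-- loop over the guesses -/
def guessP (a : ℕ) : Prog :=
  .seq (forP 8 (glenE a) (.put 4 (.reg 8) (.lit 0)))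
  (.seq (.set 6 (.lit 1))
    (.wh (.reg 6) (.seq (setupP a) (.seq innerP (.seq (incP 4 (.lit 0) (glenE a)) (.set 6 (.reg 12)))))))

/-- the program; `Γ`: reciprocal of the relative number of blocks, `2^a`: length of a block -/
def cutP (Γ a : ℕ) : Prog :=
  .seq (.set 1 (.div (.reg 0) (.lit Γ)))
  (.seq (.set 2 (.mul (.lit (2 ^ a)) (.reg 1)))
  (.seq (.set 3 (.add (.sub (.reg 0) (.reg 2)) (.lit 1)))
  (.seq (.set 14 (.add (.mul (.reg 0) (.reg 0)) (.lit 1)))
    (forP 4 (.reg 0)
      (forP 5 (.add (.mul (.lit (2 * 2 ^ a)) (.mul (.reg 0) (.reg 0))) (.lit 1)) (guessP a))))))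

/-! ### inputs and outputs -/

/-- the input: `n` and the adjacency matrix -/
noncomputable def input {n : ℕ} (G : SimpleGraph (Fin n)) : St := by
  classical
  exact ⟨fun i => if i = 0 then n else 0, fun k x => if k = 0 ∧ ∃ u v : Fin n,
    G.Adj u v ∧ x = u * n + v then 1 else 0⟩

/-- the output: the set of vertices marked in array 1 -/
def output (n : ℕ) (s : St) : Set (Fin n) := {v | s.a 1 v ≠ 0}

/-- number of edges between `X` and its complement -/
noncomputable def cutSize {n : ℕ} (G : SimpleGraph (Fin n)) (X : Set (Fin n)) : ℕ :=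
  {e | e ∈ G.edgeSet ∧ ∃ u ∈ X, ∃ v ∉ X, e = s(u, v)}.ncard

def IsMaxCut {n : ℕ} (G : SimpleGraph (Fin n)) (X : Set (Fin n)) : Prop :=
  ∀ Y, cutSize G Y ≤ cutSize G X

/-- number of edges -/
noncomputable def edges {n : ℕ} (G : SimpleGraph (Fin n)) : ℕ := G.edgeSet.ncard

/-- size of a maximum cut -/
noncomputable def maxCut {n : ℕ} (G : SimpleGraph (Fin n)) : ℕ := ⨆ X, cutSize G X

/-- `Solves γ C p 𝒢`: on every graph the program `p` stops after at most `C (n+1)^C 2^((1-γ)n)`
steps, all numbers that occur are at most `C (n+1)^C`, and for graphs in the class `𝒢` the output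
is a maximum cut -/
def Solves (γ : ℝ) (C : ℕ) (p : Prog) (𝒢 : ∀ n : ℕ, SimpleGraph (Fin n) → Prop) : Prop :=
  ∀ (n : ℕ) (G : SimpleGraph (Fin n)), ∃ (t : ℕ) (s : St),
    Run (C * (n + 1) ^ C) p (input G) t s ∧
    (t : ℝ) ≤ C * ((n : ℝ) + 1) ^ C * 2 ^ ((1 - γ) * n) ∧
    (𝒢 n G → IsMaxCut G (output n s))

end Pool.Agent.H79.MC
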