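import Pool.Agent.H79.MC.Targets2
import Pool.Agent.H16.MC.MXW
import Pool.Agent.H14.MC.WR
import Pool.Agent.H14.MC.FR
import Pool.Agent.H65.MC.SUM
import Pool.Agent.H65.MC.INC
import Pool.Agent.H74.MC.CPY
import Pool.Agent.H89.MC.ZER
import Pool.Agent.H91.MC.DIG
import Pool.Agent.H3.MC.STP
import Pool.Agent.H3.MC.ROT
import Pool.Agent.H56.MC.BNS
import Pool.Agent.H74.MC.EVL
import Pool.Agent.H56.MC.BD1
import Pool.Agent.H11.MC.BD2
import Pool.Agent.H4.MXC.BDY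
import Pool.Agent.H74.MC.INR
import Pool.Agent.H33.MC.GSL
import Pool.Agent.H4.MXC.PRG
import Pool.Agent.H11.MC.LNK
import Pool.Agent.H2.MC2.MCB
import Pool.Agent.H33.MC.WIN
import Pool.Agent.H35.MC.ENC
import Pool.Agent.H69.MC.SMP
import Pool.Agent.H51.MC.EST
import Pool.Agent.H60.MC.GOD
import Pool.Agent.H69.MC.TH1
import Pool.Agent.H12.MXC.DET

/-!
Polynomial space algorithms for maximum cut: assembly of the first theorem.
-/

set_option autoImplicit false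

namespace Pool.Agent.H79.MC

theorem c_mxw : T_MXW := Pool.Agent.H16.MC.pf_mxw
theorem c_wr : T_WR := Pool.Agent.H14.MC.pf_wr
theorem c_fr : T_FR := Pool.Agent.H14.MC.pf_fr c_wr c_mxw
theorem c_sum : T_SUM := Pool.Agent.H65.MC.pf_sum c_fr c_mxw
theorem c_inc : T_INC := Pool.Agent.H65.MC.pf_inc c_wr
theorem c_cpy : T_CPY := Pool.Agent.H74.MC.pf_cpy c_fr c_mxw
theorem c_zer : T_ZER := Pool.Agent.H89.MC.pf_zer c_fr c_mxw
theorem c_dig : T_DIG := Pool.Agent.H91.MC.pf_dig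
theorem c_stp : T_STP := Pool.Agent.H3.MC.pf_stp c_fr c_dig
theorem c_rot : T_ROT := Pool.Agent.H3.MC.pf_rot
theorem c_bns : T_BNS := Pool.Agent.H56.MC.pf_bns
theorem c_evl : T_EVL := Pool.Agent.H74.MC.pf_evl c_mxw
theorem c_bd1 : T_BD1 := Pool.Agent.H56.MC.pf_bd1 c_sum c_evl c_bns
theorem c_bd2 : T_BD2 := Pool.Agent.H11.MC.pf_bd2 c_sum c_evl c_bns c_cpy c_rot
theorem c_bdy : T_BDY := Pool.Agent.H4.MXC.BDY.pf_bdy c_bd1 c_bd2 c_inc
theorem c_inr : T_INR := Pool.Agent.H74.MC.pf_inr c_bdy c_zer c_wr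
theorem c_gsl : T_GSL := Pool.Agent.H33.MC.pf_gsl c_inr c_stp c_zer c_inc c_wr
theorem c_prg : T_PRG := Pool.Agent.H4.MXC.PRG.pf_prg c_gsl c_fr c_rot
theorem c_lnk : T_LNK := Pool.Agent.H11.MC.pf_lnk
theorem c_inp : T_INP := Pool.Agent.H11.MC.pf_inp
theorem c_sgn : T_SGN := Pool.Agent.H11.MC.pf_sgn
theorem c_mcb : T_MCB := Pool.Agent.H2.MC2.pf_mcb
theorem c_win : T_WIN := Pool.Agent.H33.MC.pf_win
theorem c_enc : T_ENC := Pool.Agent.H35.MC.pf_enc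
theorem c_smp : T_SMP := Pool.Agent.H69.MC.pf_smp
theorem c_est : T_EST := Pool.Agent.H51.MC.pf_est
theorem c_god : T_GOD :=
  Pool.Agent.H60.MC.pf_god c_lnk c_mcb c_win c_enc c_smp c_est c_bns c_rot
theorem c_th1 : T_TH1 := Pool.Agent.H69.MC.pf_th1 c_prg c_god c_lnk c_inp c_mcb c_mxw
theorem c_det : T_DET := Pool.Agent.H12.MXC.pf_det

end Pool.Agent.H79.MC
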