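import Pool.Agent.H79.MC.Main
import Pool.Agent.H11.MC.MUL
import Pool.Agent.H34.MC.MAR
import Pool.Agent.H34.MC.HLF
import Pool.Agent.H4.MXC.ENT
import Pool.Agent.H4.MXC.ORT
import Pool.Agent.H19.MC.ROB
import Pool.Agent.H91.MC.TH2
import Pool.Agent.H18.MC.AV0
import Pool.Agent.H18.MC.AV1
import Pool.Agent.H33.MC.AV2
import Pool.Agent.H60.MC.TRI
import Pool.Agent.H47.MC.TH3
import Pool.Agent.H19.MC.TH4
import Pool.Agent.H47.MC.TH5

/-!
Polynomial space algorithms for maximum cut: assembly of the other theorems.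
-/

set_option autoImplicit false

namespace Pool.Agent.H79.MC

theorem c_mul : T_MUL := Pool.Agent.H11.MC.pf_mul c_sgn c_mcb
theorem c_mar : T_MAR := Pool.Agent.H34.MC.pf_mar
theorem c_hlf : T_HLF := Pool.Agent.H34.MC.pf_hlf
theorem c_ent : T_ENT := Pool.Agent.H4.MXC.pf_ent c_mar
theorem c_ort : T_ORT := Pool.Agent.H4.MXC.ORT.pf_ort c_mar
theorem c_rob : T_ROB := Pool.Agent.H19.MC.pf_rob c_ent c_ort c_mar c_mul c_sgn
theorem c_th2 : T_TH2 := Pool.Agent.H91.MC.pf_th2 c_th1 c_rob c_mcb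
theorem c_av0 : T_AV0 := Pool.Agent.H18.MC.pf_av0
theorem c_av1 : T_AV1 := Pool.Agent.H18.MC.pf_av1 c_av0
theorem c_av2 : T_AV2 := Pool.Agent.H33.MC.pf_av2 c_av0
theorem c_tri : T_TRI := Pool.Agent.H60.MC.pf_tri c_av0 c_av1 c_av2 c_hlf c_mul
theorem c_th3 : T_TH3 := pf_th3 c_th2 c_tri c_mcb
theorem c_th4 : T_TH4 := Pool.Agent.H19.MC.pf_th4 c_th2 c_mcb
theorem c_th5 : T_TH5 := pf_th5 c_th2 c_mcb

end Pool.Agent.H79.MC
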