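import Pool.Agent.H79.MC.Defs

/-!
Polynomial space algorithms for maximum cut: targets, part M (the machine and the program).
-/

set_option autoImplicit false

namespace Pool.Agent.H79.MC

/-- `p` started in `s` stops after at most `T` steps in a state with `Q` -/
def Ex (W : ℕ) (p : Prog) (s : St) (T : ℕ) (Q : St → Prop) : Prop :=
  ∃ (t : ℕ) (s' : St), Run W p s t s' ∧ t ≤ T ∧ Q s'

/-- `s'` differs from `s` at most in the registers `R` and the arrays `K` -/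
def Agree (R K : Finset ℕ) (s s' : St) : Prop :=
  (∀ i, i ∉ R → s'.r i = s.r i) ∧ ∀ k, k ∉ K → s'.a k = s.a k

/-- binary digits -/
def bits (X i : ℕ) : ℕ := X / 2 ^ i % 2

/-- the values of the cut: ordered pairs of adjacent positions on the same side; position `i`
belongs to the vertex `(i + j) % n` -/
def valF (n : ℕ) (A : ℕ → ℕ → ℕ) (j : ℕ) (x : ℕ → ℕ) : ℕ :=
  ∑ i ∈ Finset.range n, ∑ i' ∈ Finset.range n,
    A ((i + j) % n) ((i' + j) % n) * if x i = x i' then 1 else 0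

/-- element of block `t` selected by the guess `g` -/
def bPos (a g t : ℕ) : ℕ := g / 2 ^ ((a + 1) * t) % 2 ^ a

/-- sign of block `t` in the guess `g` -/
def bSg (a g t : ℕ) : ℕ := bits g ((a + 1) * t + a)

/-- weights of the sample -/
def wS (a q g i : ℕ) : ℕ :=
  if i < 2 ^ a * q ∧ i % 2 ^ a = bPos a g (i / 2 ^ a) then 2 * 2 ^ a else 0

/-- signs of the sample -/
def sS (a q g i : ℕ) : ℕ :=
  if i < 2 ^ a * q ∧ i % 2 ^ a = bPos a g (i / 2 ^ a) then bSg a g (i / 2 ^ a) else 0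

/-- the test -/
def testF (a q n : ℕ) (A : ℕ → ℕ → ℕ) (j g : ℕ) (x : ℕ → ℕ) : ℕ :=
  ∑ i ∈ Finset.range n, ∑ i' ∈ Finset.range n,
    (if 2 ^ a * q ≤ i then 1 else 0) * A ((i + j) % n) ((i' + j) % n) *
      ((if 2 ^ a * q ≤ i' then 1 else 0) * (if x i = x i' then 1 else 0) +
        wS a q g i' * if x i = sS a q g i' then 1 else 0)

/-- the high part `y` passes the test -/
def Kept (a q n : ℕ) (A : ℕ → ℕ → ℕ) (j g τ y : ℕ) : Prop :=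
  testF a q n A j g (bits (y * 2 ^ (2 ^ a * q))) ≤ τ

open Classical in
/-- number of steps of the inner loop needed for all of the search space -/
noncomputable def cost (a q n : ℕ) (A : ℕ → ℕ → ℕ) (j g τ : ℕ) : ℕ :=
  ∑ y ∈ Finset.range (2 ^ (n - 2 ^ a * q)), if Kept a q n A j g τ y then 2 ^ (2 ^ a * q) else 1

/-- some guess finds a maximum cut in time -/
def Good (a q n : ℕ) (A : ℕ → ℕ → ℕ) : Prop :=
  ∃ j < n, ∃ g < 2 ^ ((a + 1) * q), ∃ τ ≤ 2 * 2 ^ a * (n * n),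
    cost a q n A j g τ ≤ 2 ^ (n - 2 ^ a * q + 1) ∧
    ∃ X < 2 ^ n, (∀ X' < 2 ^ n, valF n A j (bits X) ≤ valF n A j (bits X')) ∧
      Kept a q n A j g τ (X / 2 ^ (2 ^ a * q))

/-! ### the machine -/

/-- DET: runs are unique -/
def T_DET : Prop := ∀ (W : ℕ) (p : Prog) (s s₁ s₂ : St) (t₁ t₂ : ℕ),
  Run W p s t₁ s₁ → Run W p s t₂ s₂ → t₁ = t₂ ∧ s₁ = s₂

/-- MXW: the word bound can be increased; values are at most `mx` -/
def T_MXW : Prop := (∀ (s : St) (e : Exp), ev s e ≤ mx s e) ∧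
  ∀ (W W' : ℕ) (p : Prog) (s s' : St) (t : ℕ), W ≤ W' → Run W p s t s' → Run W' p s t s'

/-- WR: while loops -/
def T_WR : Prop := ∀ (W : ℕ) (e : Exp) (p : Prog) (s : St) (T m : ℕ) (I : ℕ → St → Prop),
  I 0 s → (∀ k s', I k s' → mx s' e ≤ W ∧ (ev s' e ≠ 0 → k < m)) →
  (∀ k s', I k s' → ev s' e ≠ 0 → Ex W p s' T (I (k + 1))) →
  Ex W (.wh e p) s (m * (T + 1) + 1) fun s' => (∃ k ≤ m, I k s') ∧ ev s' e = 0

/-- FR: for loops -/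
def T_FR : Prop := ∀ (W i : ℕ) (N : Exp) (p : Prog) (s : St) (T m : ℕ) (I : ℕ → St → Prop),
  I 0 (s.setr i 0) →
  (∀ k s', k ≤ m → I k s' → s'.r i = k ∧ ev s' N = m ∧ mx s' N ≤ W) →
  (∀ k s', k < m → I k s' →
    Ex W p s' T fun s'' => s''.r i = k ∧ I (k + 1) (s''.setr i (k + 1))) →
  Ex W (forP i N p) s (m * (T + 2) + 2) (I m)

/-- INC: increment -/
def T_INC : Prop := ∀ (W k : ℕ) (es el : Exp) (s : St) (X st len : ℕ),
  ev s es = st → mx s es ≤ W →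
  (∀ s', Agree {11, 12} {k} s s' → ev s' el = len ∧ mx s' el ≤ W) → st ≤ len → len + 1 ≤ W →
  (∀ i < len, s.a k i = bits X i) → X < 2 ^ len → X % 2 ^ st = 0 →
  Ex W (incP k es el) s (5 * len + 5) fun s' =>
    Agree {11, 12} {k} s s' ∧ (∀ i, len ≤ i → s'.a k i = s.a k i) ∧
    ((s'.r 12 = 1 ∧ X + 2 ^ st < 2 ^ len ∧ (∀ i < len, s'.a k i = bits (X + 2 ^ st) i) ∧
        st ≤ s'.r 11 ∧ s'.r 11 < len ∧ (X + 2 ^ st) % 2 ^ (s'.r 11) = 0 ∧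
        bits (X + 2 ^ st) (s'.r 11) = 1) ∨
      (s'.r 12 = 0 ∧ s'.r 11 = len ∧ 2 ^ len ≤ X + 2 ^ st))

/-- SUM: double sums -/
def T_SUM : Prop := ∀ (W : ℕ) (e : Exp) (s : St) (n : ℕ) (f : ℕ → ℕ → ℕ), s.r 0 = n → n + 1 ≤ W →
  (∀ s' i i', Agree {8, 9, 10} ∅ s s' → i < n → i' < n → s'.r 8 = i → s'.r 9 = i' →
    ev s' e = f i i' ∧ mx s' e ≤ W) →
  ∑ i ∈ Finset.range n, ∑ i' ∈ Finset.range n, f i i' ≤ W →
  Ex W (sumP e) s (3 * n * n + 4 * n + 3) fun s' => Agree {8, 9, 10} ∅ s s' ∧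
    s'.r 10 = ∑ i ∈ Finset.range n, ∑ i' ∈ Finset.range n, f i i'

/-- CPY: copy the current cut to the output -/
def T_CPY : Prop := ∀ (W : ℕ) (s : St) (n j : ℕ), s.r 0 = n → s.r 4 = j → j < n → 2 * n + 1 ≤ W →
  (∀ i < n, s.a 2 i ≤ 1) →
  Ex W copyP s (3 * n + 2) fun s' => Agree {8} {1} s s' ∧
    ∀ i < n, s'.a 1 ((i + j) % n) = s.a 2 i

/-- ZER: initialisation of an array -/
def T_ZER : Prop := ∀ (W k : ℕ) (N : Exp) (s : St) (m : ℕ), m + 1 ≤ W →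
  (∀ s', Agree {8} {k} s s' → ev s' N = m ∧ mx s' N ≤ W) →
  Ex W (forP 8 N (.put k (.reg 8) (.lit 0))) s (3 * m + 2) fun s' => Agree {8} {k} s s' ∧
    ∀ i < m, s'.a k i = 0

/-- DIG: the decoding expression -/
def T_DIG : Prop := ∀ (a g q t : ℕ) (s : St), s.r 8 = t → t < q →
  (∀ i < (a + 1) * q, s.a 4 i = bits g i) →
  ev s (posE (a + 1) a) = bPos a g t ∧ bPos a g t < 2 ^ a ∧
    mx s (posE (a + 1) a) ≤ max (2 ^ a) ((a + 1) * q + a + 1)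

/-- STP: decoding the guess -/
def T_STP : Prop := ∀ (a W : ℕ) (s : St) (n q g : ℕ), s.r 0 = n → s.r 1 = q → s.r 2 = 2 ^ a * q →
  2 ^ a * q ≤ n → (∀ i < (a + 1) * q, s.a 4 i = bits g i) → 1 ≤ n →
  2 * 2 ^ a * (n + 1) + (a + 1) * (n + 1) ≤ W →
  Ex W (setupP a) s (10 * n + 10) fun s' => Agree {8, 9} {5, 6, 7} s s' ∧
    ∀ i < n, s'.a 5 i = (if 2 ^ a * q ≤ i then 1 else 0) ∧ s'.a 6 i = wS a q g i ∧
      s'.a 7 i = sS a q g i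

/-! ### the loops -/

/-- parameters and constants of the loops -/
structure Base (a q n : ℕ) (A : ℕ → ℕ → ℕ) (s : St) : Prop where
  r0 : s.r 0 = n
  r1 : s.r 1 = q
  r2 : s.r 2 = 2 ^ a * q
  r3 : s.r 3 = n - 2 ^ a * q + 1
  adj : ∀ u < n, ∀ v < n, s.a 0 (u * n + v) = A u v

/-- the best cut so far is stored in the output, and its value in register 14 -/
def Out (n : ℕ) (A : ℕ → ℕ → ℕ) (s : St) : Prop :=
  s.r 14 = n * n + 1 ∨ ((∀ v < n, s.a 1 v ≤ 1) ∧ s.r 14 = valF n A 0 (s.a 1))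

/-- the guess is decoded -/
structure Dec (a q n j τ g : ℕ) (s : St) : Prop where
  r4 : s.r 4 = j
  r5 : s.r 5 = τ
  a4 : ∀ i < (a + 1) * q, s.a 4 i = bits g i
  a5 : ∀ i < n, s.a 5 i = if 2 ^ a * q ≤ i then 1 else 0
  a6 : ∀ i < n, s.a 6 i = wS a q g i
  a7 : ∀ i < n, s.a 7 i = sS a q g i

/-- the state of the inner loop -/
structure Inn (a q n X c : ℕ) (s : St) : Prop where
  hX : X < 2 ^ n
  hc : c < 2 ^ (n - 2 ^ a * q + 1)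
  a2 : ∀ i < n, s.a 2 i = bits X i
  a3 : ∀ i < n - 2 ^ a * q + 1, s.a 3 i = bits c i
  r15 : s.r 15 ≠ 0 ↔ X % 2 ^ (2 ^ a * q) = 0
  r15' : s.r 15 ≤ n + 1

/-- hypotheses on the parameters -/
structure Par (a q n : ℕ) (A : ℕ → ℕ → ℕ) (W : ℕ) : Prop where
  hn : 1 ≤ n
  hb : 2 ^ a * q ≤ n
  hA : ∀ u v, A u v ≤ 1
  hW : (2 * 2 ^ a + a + 4) * (n + 1) * (n + 1) ≤ W

/-- ROT: rotation of the positions -/
def T_ROT : Prop := ∀ (n : ℕ) (A : ℕ → ℕ → ℕ) (j : ℕ) (x y : ℕ → ℕ), j < n →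
  (∀ i < n, y ((i + j) % n) = x i) → valF n A 0 y = valF n A j x

/-- BNS: bounds for the sums -/
def T_BNS : Prop := ∀ (a q n : ℕ) (A : ℕ → ℕ → ℕ) (j g : ℕ) (x : ℕ → ℕ), (∀ u v, A u v ≤ 1) →
  valF n A j x ≤ n * n ∧ testF a q n A j g x ≤ 2 * 2 ^ a * (n * n)

/-- EVL: the two summands, evaluated by the machine -/
def T_EVL : Prop := ∀ (a q n : ℕ) (A : ℕ → ℕ → ℕ) (W j τ g : ℕ) (s : St) (x : ℕ → ℕ),
  Par a q n A W → Base a q n A s → Dec a q n j τ g s → j < n → (∀ i < n, s.a 2 i = x i) →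
  (∀ i < n, x i ≤ 1) → ∀ i < n, ∀ i' < n, s.r 8 = i → s.r 9 = i' →
  (ev s valE = A ((i + j) % n) ((i' + j) % n) * (if x i = x i' then 1 else 0) ∧ mx s valE ≤ W) ∧
  (ev s testE = (if 2 ^ a * q ≤ i then 1 else 0) * A ((i + j) % n) ((i' + j) % n) *
      ((if 2 ^ a * q ≤ i' then 1 else 0) * (if x i = x i' then 1 else 0) +
        wS a q g i' * if x i = sS a q g i' then 1 else 0) ∧ mx s testE ≤ W)

/-- BD1: first part of the body: `r 13 ≠ 0` iff the current cut is kept -/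
def T_BD1 : Prop := ∀ (a q n : ℕ) (A : ℕ → ℕ → ℕ) (W j τ g X c : ℕ) (s : St),
  Par a q n A W → Base a q n A s → Dec a q n j τ g s → j < n → τ ≤ 2 * 2 ^ a * (n * n) →
  Inn a q n X c s →
  Ex W (.ite (.reg 15) (.seq (sumP testE) (.set 13 (.sub (.add (.reg 5) (.lit 1)) (.reg 10))))
      (.set 13 (.lit 1))) s (3 * n * n + 4 * n + 10) fun s' =>
    Agree {8, 9, 10, 13} ∅ s s' ∧ s'.r 13 ≤ W ∧
    (s'.r 13 ≠ 0 ↔ X % 2 ^ (2 ^ a * q) ≠ 0 ∨ testF a q n A j g (bits X) ≤ τ)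

/-- BD2: evaluation of the current cut -/
def T_BD2 : Prop := ∀ (a q n : ℕ) (A : ℕ → ℕ → ℕ) (W j τ g X c : ℕ) (s : St),
  Par a q n A W → Base a q n A s → Dec a q n j τ g s → j < n → Inn a q n X c s → Out n A s →
  s.r 14 ≤ n * n + 1 →
  Ex W (.seq (sumP valE)
      (.ite (.sub (.reg 14) (.reg 10)) (.seq (.set 14 (.reg 10)) copyP) .skip))
    s (3 * n * n + 7 * n + 12) fun s' => Agree {8, 9, 10, 14} {1} s s' ∧ Out n A s' ∧
      s'.r 14 = min (s.r 14) (valF n A j (bits X))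

/-- BDY: one step of the inner loop -/
def T_BDY : Prop := ∀ (a q n : ℕ) (A : ℕ → ℕ → ℕ) (W j τ g X c : ℕ) (s : St),
  Par a q n A W → Base a q n A s → Dec a q n j τ g s → j < n → τ ≤ 2 * 2 ^ a * (n * n) →
  Inn a q n X c s → Out n A s → s.r 14 ≤ n * n + 1 →
  Ex W bodyP s (6 * n * n + 30 * n + 60) fun s' => Base a q n A s' ∧ Dec a q n j τ g s' ∧
    Out n A s' ∧ s'.r 14 ≤ s.r 14 ∧ s'.r 6 = s.r 6 ∧ s'.r 7 ≤ 1 ∧
    ∃ X', ((X % 2 ^ (2 ^ a * q) ≠ 0 ∨ testF a q n A j g (bits X) ≤ τ) →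
        X' = X + 1 ∧ s'.r 14 ≤ valF n A j (bits X)) ∧
      (¬(X % 2 ^ (2 ^ a * q) ≠ 0 ∨ testF a q n A j g (bits X) ≤ τ) →
        X' = X + 2 ^ (2 ^ a * q)) ∧
      (s'.r 7 ≠ 0 ↔ X' < 2 ^ n ∧ c + 1 < 2 ^ (n - 2 ^ a * q + 1)) ∧
      (s'.r 7 ≠ 0 → Inn a q n X' (c + 1) s')

/-- INR: the inner loop -/
def T_INR : Prop := ∀ (a q n : ℕ) (A : ℕ → ℕ → ℕ) (W j τ g : ℕ) (s : St),
  Par a q n A W → Base a q n A s → Dec a q n j τ g s → j < n → τ ≤ 2 * 2 ^ a * (n * n) →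
  Out n A s → s.r 14 ≤ n * n + 1 →
  Ex W innerP s (2 ^ (n - 2 ^ a * q + 1) * (6 * n * n + 30 * n + 61) + 6 * n + 20) fun s' =>
    Base a q n A s' ∧ Dec a q n j τ g s' ∧ Out n A s' ∧ s'.r 14 ≤ s.r 14 ∧ s'.r 6 = s.r 6 ∧
    (cost a q n A j g τ ≤ 2 ^ (n - 2 ^ a * q + 1) →
      ∀ X < 2 ^ n, Kept a q n A j g τ (X / 2 ^ (2 ^ a * q)) → s'.r 14 ≤ valF n A j (bits X))

/-- GSL: the loop over the guesses -/
def T_GSL : Prop := ∀ (a q n : ℕ) (A : ℕ → ℕ → ℕ) (W j τ : ℕ) (s : St),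
  Par a q n A W → Base a q n A s → s.r 4 = j → s.r 5 = τ → j < n → τ ≤ 2 * 2 ^ a * (n * n) →
  Out n A s → s.r 14 ≤ n * n + 1 →
  Ex W (guessP a) s (2 ^ ((a + 1) * q) * (2 ^ (n - 2 ^ a * q + 1) * (6 * n * n + 30 * n + 61) +
      (5 * (a + 1) + 30) * (n + 2)) + (5 * (a + 1) + 30) * (n + 2)) fun s' =>
    Base a q n A s' ∧ s'.r 4 = j ∧ s'.r 5 = τ ∧ Out n A s' ∧ s'.r 14 ≤ s.r 14 ∧
    ∀ g < 2 ^ ((a + 1) * q), cost a q n A j g τ ≤ 2 ^ (n - 2 ^ a * q + 1) →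
      ∀ X < 2 ^ n, Kept a q n A j g τ (X / 2 ^ (2 ^ a * q)) → s'.r 14 ≤ valF n A j (bits X)

/-- PRG: the program -/
def T_PRG : Prop := ∀ (Γ a : ℕ), 2 ^ a ≤ Γ → ∃ C : ℕ, ∀ (n : ℕ) (A : ℕ → ℕ → ℕ) (s : St),
  (∀ u v, A u v ≤ 1) → s.r 0 = n → (∀ u < n, ∀ v < n, s.a 0 (u * n + v) = A u v) →
  Ex (C * (n + 1) ^ C) (cutP Γ a) s
    (C * (n + 1) ^ C * 2 ^ (n - 2 ^ a * (n / Γ) + 1 + (a + 1) * (n / Γ))) fun s' =>
    Good a (n / Γ) n A → (∀ v < n, s'.a 1 v ≤ 1) ∧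
      ∀ y : ℕ → ℕ, (∀ v < n, y v ≤ 1) → valF n A 0 (s'.a 1) ≤ valF n A 0 y

end Pool.Agent.H79.MC
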