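import Pool.Agent.H79.MC.Targets

/-!
Polynomial space algorithms for maximum cut: targets, part G (graphs).
-/

set_option autoImplicit false

namespace Pool.Agent.H79.MC

open Classical in
/-- adjacency of numbers -/
noncomputable def adjN {n : ℕ} (G : SimpleGraph (Fin n)) (u v : ℕ) : ℕ :=
  if ∃ (hu : u < n) (hv : v < n), G.Adj ⟨u, hu⟩ ⟨v, hv⟩ then 1 else 0

/-- few near-optimal cuts: at most `2^((1-c)n)` sets `X` have `|δ(X)| ≥ mc - η √(mn)` -/
def Few (η c : ℝ) (n : ℕ) (G : SimpleGraph (Fin n)) : Prop :=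
  (({X : Set (Fin n) | (maxCut G : ℝ) - η * Real.sqrt (edges G * n) ≤ cutSize G X}.ncard : ℕ) : ℝ) ≤
    2 ^ ((1 - c) * n)

/-! ### from graphs to the program -/

/-- LNK: cuts and values -/
def T_LNK : Prop := ∀ (n : ℕ) (G : SimpleGraph (Fin n)) (x : ℕ → ℕ), (∀ v < n, x v ≤ 1) →
  valF n (adjN G) 0 x + 2 * cutSize G {v : Fin n | x v ≠ 0} = 2 * edges G

/-- INP: the input -/
def T_INP : Prop := ∀ (n : ℕ) (G : SimpleGraph (Fin n)), (input G).r 0 = n ∧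
  ∀ u < n, ∀ v < n, (input G).a 0 (u * n + v) = adjN G u v

/-- MCB: the maximum cut -/
def T_MCB : Prop := ∀ (n : ℕ) (G : SimpleGraph (Fin n)), (∀ X, cutSize G X ≤ maxCut G) ∧
  (∃ X, cutSize G X = maxCut G) ∧ ∀ X, IsMaxCut G X ↔ cutSize G X = maxCut G

/-- WIN: a cyclic window of small weight -/
def T_WIN : Prop := ∀ (n b : ℕ) (w : ℕ → ℝ), 1 ≤ n → ∃ j < n,
  n * ∑ i ∈ Finset.range b, w ((i + j) % n) ≤ b * ∑ v ∈ Finset.range n, w v

/-- ENC: encoding of positions and signs -/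
def T_ENC : Prop := ∀ (a q : ℕ) (p e : ℕ → ℕ), (∀ t, p t < 2 ^ a) → (∀ t, e t ≤ 1) →
  ∃ g < 2 ^ ((a + 1) * q), ∀ t < q, bPos a g t = p t ∧ bSg a g t = e t

/-- SMP: sampling one element of each block -/
def T_SMP : Prop := ∀ (q l : ℕ) (U : Finset ℕ) (c : ℕ → ℕ → ℝ), 1 ≤ l → ∃ p : ℕ → ℕ,
  (∀ t, p t < l) ∧
  ∑ u ∈ U, |∑ v ∈ Finset.range (l * q), c u v - l * ∑ t ∈ Finset.range q, c u (l * t + p t)| ≤
    ∑ u ∈ U, Real.sqrt (l * ∑ v ∈ Finset.range (l * q), c u v ^ 2)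

/-- EST: the test approximates the value. `x` a cut (signs `x i ∈ {0,1}`), `z` a cut that agrees
with the sample on the low positions -/
def T_EST : Prop := ∀ (a q n : ℕ) (A : ℕ → ℕ → ℕ) (j g : ℕ) (z : ℕ → ℕ), 2 ^ a * q ≤ n →
  (∀ u v, A u v ≤ 1) → (∀ u v, A u v = A v u) → (∀ i < n, z i ≤ 1) →
  (∀ t < q, bSg a g t = z (2 ^ a * t + bPos a g t)) →
  ∀ x : ℕ → ℕ, (∀ i < n, x i ≤ 1) → (∀ i < 2 ^ a * q, x i = z i) →
    ((valF n A j x : ℝ) - testF a q n A j g x) - ((valF n A j z : ℝ) - testF a q n A j g z) ≤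
    2 * ∑ u ∈ Finset.Ico (2 ^ a * q) n,
      |∑ v ∈ Finset.range (2 ^ a * q), (A ((u + j) % n) ((v + j) % n) : ℝ) * (2 * z v - 1) -
        (2 : ℝ) ^ a * ∑ t ∈ Finset.range q,
          (A ((u + j) % n) ((2 ^ a * t + bPos a g t + j) % n) : ℝ) *
            (2 * z (2 ^ a * t + bPos a g t) - 1)|

/-- GOD: graphs with few near-optimal cuts are good -/
def T_GOD : Prop := ∀ η c : ℝ, 0 < η → 0 < c → ∃ Γ₀ : ℕ, ∀ Γ : ℕ, Γ₀ ≤ Γ → 64 ≤ Γ →
  ∀ (n : ℕ) (G : SimpleGraph (Fin n)), 1 ≤ n → Few η c n G → Good 6 (n / Γ) n (adjN G)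

/-- TH1: few near-optimal cuts -/
def T_TH1 : Prop := ∀ η c : ℝ, 0 < η → 0 < c → ∃ (γ : ℝ) (C : ℕ) (p : Prog), 0 < γ ∧
  Solves γ C p (Few η c)

/-! ### structure of near-optimal cuts -/

open Classical in
/-- the quadratic form of the graph -/
noncomputable def phi {n : ℕ} (G : SimpleGraph (Fin n)) (z : Fin n → ℝ) : ℝ :=
  ∑ u, ∑ v, if G.Adj u v then z u * z v else 0

/-- every fractional point with small coordinates is far from optimal -/
def Robust (κ : ℝ) (n : ℕ) (G : SimpleGraph (Fin n)) : Prop :=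
  ∀ z : Fin n → ℝ, (∀ v, |z v| ≤ 1) → ∑ v, z v ^ 2 ≤ κ * n →
    2 * (edges G : ℝ) - 4 * maxCut G + κ * Real.sqrt (edges G * n) ≤ phi G z

open Classical in
/-- the `±1` vector of a set -/
noncomputable def sgv {n : ℕ} (X : Set (Fin n)) (v : Fin n) : ℝ := if v ∈ X then 1 else -1

/-- SGN: the form at a cut -/
def T_SGN : Prop := ∀ (n : ℕ) (G : SimpleGraph (Fin n)) (X : Set (Fin n)),
  phi G (sgv X) = 2 * (edges G : ℝ) - 4 * cutSize G X

/-- MUL: fractional points are not better than cuts -/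
def T_MUL : Prop := ∀ (n : ℕ) (G : SimpleGraph (Fin n)) (z : Fin n → ℝ), (∀ v, |z v| ≤ 1) →
  2 * (edges G : ℝ) - 4 * maxCut G ≤ phi G z

open Classical in
/-- number of the elements of `F` that agree with `x` below `v` -/
noncomputable def fib {n : ℕ} (F : Finset (Fin n → Bool)) (x : Fin n → Bool) (v : ℕ) :
    Finset (Fin n → Bool) := F.filter fun y => ∀ i : Fin n, (i : ℕ) < v → y i = x i

/-- sign of a bit -/
def sb (b : Bool) : ℝ := if b then 1 else -1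

/-- conditional mean of the coordinate `v` given the coordinates below `v` -/
noncomputable def cmean {n : ℕ} (F : Finset (Fin n → Bool)) (x : Fin n → Bool) (v : Fin n) : ℝ :=
  (∑ y ∈ fib F x v, sb (y v)) / (fib F x v).card

/-- ENT: large sets have small conditional means -/
def T_ENT : Prop := ∀ (n : ℕ) (F : Finset (Fin n → Bool)) (c : ℝ), F.Nonempty →
  (2 : ℝ) ^ ((1 - c) * n) ≤ F.card →
  ∑ x ∈ F, ∑ v, cmean F x v ^ 2 ≤ 2 * Real.log 2 * c * n * F.card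

/-- MAR: martingale property -/
def T_MAR : Prop := ∀ (n : ℕ) (F : Finset (Fin n → Bool)) (v : Fin n) (h : (Fin n → Bool) → ℝ),
  (∀ x ∈ F, |cmean F x v| ≤ 1) ∧
  ((∀ x y, (∀ i, i < v → x i = y i) → h x = h y) → ∑ x ∈ F, h x * (sb (x v) - cmean F x v) = 0)

/-- ORT: comparison of the form at a random element and at its conditional means -/
def T_ORT : Prop := ∀ (n : ℕ) (G : SimpleGraph (Fin n)) (F : Finset (Fin n → Bool)),
  ∑ x ∈ F, phi G (cmean F x) ≤ ∑ x ∈ F, phi G (fun v => sb (x v)) +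
    2 * Real.sqrt (edges G * F.card) * Real.sqrt (∑ x ∈ F, ∑ v, cmean F x v ^ 2)

/-- ROB: robust graphs have few near-optimal cuts -/
def T_ROB : Prop := ∀ κ : ℝ, 0 < κ → ∃ η c : ℝ, 0 < η ∧ 0 < c ∧
  ∀ (n : ℕ) (G : SimpleGraph (Fin n)), 1 ≤ edges G → Robust κ n G → Few η c n G

/-- TH2: robust graphs -/
def T_TH2 : Prop := ∀ κ : ℝ, 0 < κ → ∃ (γ : ℝ) (C : ℕ) (p : Prog), 0 < γ ∧
  Solves γ C p (Robust κ)

/-! ### classes of robust graphs -/

open Classical in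
/-- degree -/
noncomputable def degr {n : ℕ} (G : SimpleGraph (Fin n)) (v : Fin n) : ℕ :=
  (Finset.univ.filter fun u => G.Adj v u).card

/-- maximum degree at most `K` times the average degree -/
def NearRegular (K : ℝ) {n : ℕ} (G : SimpleGraph (Fin n)) : Prop :=
  ∀ v, (degr G v : ℝ) * n ≤ K * (2 * edges G)

open Classical in
/-- number of triangles -/
noncomputable def triangles {n : ℕ} (G : SimpleGraph (Fin n)) : ℕ := (G.cliqueFinset 3).card

/-- the smallest eigenvalue is at least `-K √(m/n)` -/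
def SpecBound (K : ℝ) {n : ℕ} (G : SimpleGraph (Fin n)) : Prop :=
  ∀ z : Fin n → ℝ, -(K * Real.sqrt (edges G / n) * ∑ v, z v ^ 2) ≤ phi G z

/-- average of a function of random signs -/
noncomputable def av {n : ℕ} (f : (Fin n → Bool) → ℝ) : ℝ := (∑ y, f y) / 2 ^ n

/-- sum of the signs in `S` -/
noncomputable def Ys {n : ℕ} (S : Finset (Fin n)) (y : Fin n → Bool) : ℝ := ∑ u ∈ S, sb (y u)

/-- truncation to `[-1,1]` -/
noncomputable def clp (x : ℝ) : ℝ := max (-1) (min 1 x)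

/-- AV0: averages of products of signs -/
def T_AV0 : Prop := ∀ (n : ℕ), (∀ u v : Fin n, u ≠ v → av (fun y => sb (y u) * sb (y v)) = 0) ∧
  (∀ f : (Fin n → Bool) → ℝ, (∀ y, f (fun v => !(y v)) = -f y) → av f = 0) ∧
  ∀ S : Finset (Fin n), av (fun y => Ys S y ^ 2) = S.card ∧
    av (fun y => Ys S y ^ 4) ≤ 3 * (S.card : ℝ) ^ 2

/-- AV1: the gain -/
def T_AV1 : Prop := ∀ (n : ℕ) (S : Finset (Fin n)) (s : ℝ), 0 < s → 6 * (S.card : ℝ) ≤ s ^ 2 →
  9 / 10 * ((S.card : ℝ) / s) ≤ av fun y => Ys S y * clp (Ys S y / s)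

/-- AV2: correlation of truncated sums -/
def T_AV2 : Prop := ∀ (n : ℕ) (S T : Finset (Fin n)) (s : ℝ), 0 < s →
  av (fun y => clp (Ys S y / s) * clp (Ys T y / s)) ≤ ((S ∩ T).card : ℝ) / s ^ 2

/-- HLF: a bipartition with half of the edges -/
def T_HLF : Prop := ∀ (n : ℕ) (U : Finset (Fin n)) (a : Fin n → Fin n → ℝ), (∀ u v, 0 ≤ a u v) →
  (∀ u, a u u = 0) → (∀ u v, a u v = a v u) → ∃ B ⊆ U,
    (∑ u ∈ U, ∑ v ∈ U, a u v) / 4 ≤ ∑ u ∈ B, ∑ v ∈ U \ B, a u v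

/-- TRI: near-regular graphs with few triangles -/
def T_TRI : Prop := ∀ K : ℝ, 1 ≤ K → ∃ κ : ℝ, 0 < κ ∧ ∀ (n : ℕ) (G : SimpleGraph (Fin n)),
  1 ≤ edges G → NearRegular K G →
  (triangles G : ℝ) ≤ K * n * (2 * edges G / n) ^ ((3 : ℝ) / 2) → Robust κ n G

/-- TH3: near-regular graphs with few triangles -/
def T_TH3 : Prop := ∀ K : ℝ, ∃ (γ : ℝ) (C : ℕ) (p : Prog), 0 < γ ∧
  Solves γ C p fun n G => NearRegular K G ∧
    (triangles G : ℝ) ≤ K * n * (2 * edges G / n) ^ ((3 : ℝ) / 2)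

/-- TH4: bounded spectrum from below and large surplus -/
def T_TH4 : Prop := ∀ K : ℝ, 0 < K → ∃ (γ : ℝ) (C : ℕ) (p : Prog), 0 < γ ∧
  Solves γ C p fun n G =>
    SpecBound K G ∧ (edges G : ℝ) / 2 + Real.sqrt (edges G * n) / K ≤ maxCut G

/-- TH5: near-regular graphs far from random-like -/
def T_TH5 : Prop := ∀ K : ℝ, 0 < K → ∃ (γ : ℝ) (C : ℕ) (p : Prog), 0 < γ ∧
  Solves γ C p fun n G => NearRegular K G ∧ (1 / 2 + 1 / K) * (edges G : ℝ) ≤ maxCut G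

end Pool.Agent.H79.MC
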